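import Pool.Agent.N718.GC.Stm
import Pool.Agent.N681.DC.GLUE

/-! Part GLUEG of project GC (helper718): the local points are replaced by one integral point with
trivial symbols (helper293, after part GLUE of project DC by helper681). -/

set_option autoImplicit false
set_option linter.all false

namespace Pool.Agent.N293.GC

open Finset Pool.Agent.N718.DC Pool.Agent.N681.DC Pool.Agent.N718.GC

theorem nm_sq {K : Type} [Field K] {a N : K} (z : K) (h : Nm a N) : Nm a (N * z ^ 2) := by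
  obtain ⟨y, w, h⟩ := h
  exact ⟨y * z, w * z, by rw [← h]; ring⟩

variable {r m : ℕ} {e : Fin m → ℕ}

theorem pg_tr (E : Dat r m) (c c' : (i : Fin m) → Fin (e i + 2) → ℤ) {K : Type} [Field K]
    (x y x' y' : K) (h : PG E c x y) (z : Fin m → K) (hz : ∀ i, z i ≠ 0)
    (hv : ∀ i, fmv (c' i) x' y' = fmv (c i) x y * z i ^ 2) : PG E c' x' y' := by
  refine ⟨fun i => ?_, fun j => ?_⟩
  · rw [hv i]; exact mul_ne_zero (h.1 i) (pow_ne_zero _ (hz i))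
  · have h1 : rhs E c' j x' y' = rhs E c j x y * (∏ i ∈ E.I j, z i) ^ 2 := by
      unfold rhs
      rw [Finset.prod_congr rfl fun i _ => hv i, Finset.prod_mul_distrib, Finset.prod_pow]
      ring
    rw [h1]
    exact nm_sq _ (h.2 j)

theorem pg_smul (E : Dat r m) (hE : ∀ j, Even (∑ i ∈ E.I j, (e i + 1)))
    (c : (i : Fin m) → Fin (e i + 2) → ℤ) {K : Type} [Field K] (x y l : K) (hl : l ≠ 0)
    (h : PG E c x y) : PG E c (l * x) (l * y) := by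
  refine ⟨fun i => ?_, fun j => ?_⟩
  · have h2 : fmv (c i) (l * x) (l * y) = l ^ (e i + 1) * fmv (c i) x y := by
      unfold fmv; rw [fm_smul]
    rw [h2]; exact mul_ne_zero (pow_ne_zero _ hl) (h.1 i)
  · obtain ⟨t, ht⟩ := hE j
    have h1 : rhs E c j (l * x) (l * y) = rhs E c j x y * (l ^ t) ^ 2 := by
      unfold rhs
      have h2 : ∀ i ∈ E.I j, fmv (c i) (l * x) (l * y) = l ^ (e i + 1) * fmv (c i) x y :=
        fun i _ => by unfold fmv; rw [fm_smul]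
      rw [Finset.prod_congr rfl h2, Finset.prod_mul_distrib, Finset.prod_pow_eq_pow_sum, ht,
        pow_add]
      ring
    rw [h1]; exact nm_sq _ (h.2 j)

theorem pg_norm (hm : 1 ≤ m) (E : Dat r m) (hE : ∀ j, Even (∑ i ∈ E.I j, (e i + 1)))
    (c : (i : Fin m) → Fin (e i + 2) → ℤ) {p : ℕ} [Fact p.Prime] (x y : ℚ_[p])
    (h : PG E c x y) : ∃ x' y' : ℚ_[p], max ‖x'‖ ‖y'‖ = 1 ∧ PG E c x' y' := by
  by_cases h0 : x = 0 ∧ y = 0
  · obtain ⟨rfl, rfl⟩ := h0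
    exact absurd (fm_zero _) (h.1 ⟨0, hm⟩)
  · rcases le_total ‖x‖ ‖y‖ with hxy | hxy
    · have hy : y ≠ 0 := by
        rintro rfl
        apply h0
        refine ⟨?_, rfl⟩
        rw [norm_zero] at hxy
        exact norm_le_zero_iff.1 hxy
      have hy' : 0 < ‖y‖ := norm_pos_iff.2 hy
      refine ⟨y⁻¹ * x, y⁻¹ * y, ?_, pg_smul E hE c x y _ (inv_ne_zero hy) h⟩
      rw [inv_mul_cancel₀ hy, norm_one, norm_mul, norm_inv]
      apply max_eq_right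
      rw [← div_eq_inv_mul]
      exact (div_le_one hy').2 hxy
    · have hx : x ≠ 0 := by
        rintro rfl
        apply h0
        refine ⟨rfl, ?_⟩
        rw [norm_zero] at hxy
        exact norm_le_zero_iff.1 hxy
      have hx' : 0 < ‖x‖ := norm_pos_iff.2 hx
      refine ⟨x⁻¹ * x, x⁻¹ * y, ?_, pg_smul E hE c x y _ (inv_ne_zero hx) h⟩
      rw [inv_mul_cancel₀ hx, norm_one, norm_mul, norm_inv]
      apply max_eq_left
      rw [← div_eq_inv_mul]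
      exact (div_le_one hx').2 hxy

/-! ### Valuations -/

theorem val_prod (T : Finset ℕ) (hT : ∀ q ∈ T, q.Prime) (f : ℕ → ℕ) (p : ℕ) (hp : p ∈ T) :
    padicValNat p (∏ q ∈ T, q ^ f q) = f p := by
  haveI := Fact.mk (hT p hp)
  rw [← Finset.mul_prod_erase T _ hp, padicValNat.mul (pow_ne_zero _ (hT p hp).ne_zero)
      (Finset.prod_ne_zero_iff.2 fun q hq => pow_ne_zero _
        (hT q (Finset.mem_of_mem_erase hq)).ne_zero), padicValNat.prime_pow]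
  have : padicValNat p (∏ q ∈ T.erase p, q ^ f q) = 0 := by
    apply padicValNat.eq_zero_of_not_dvd
    intro hd
    obtain ⟨q, hq, hpq⟩ := (Prime.dvd_finset_prod_iff (hT p hp).prime _).1 hd
    exact (Finset.ne_of_mem_erase hq) ((Nat.prime_dvd_prime_iff_eq (hT p hp)
        (hT q (Finset.mem_of_mem_erase hq))).1 ((hT p hp).dvd_of_dvd_pow hpq)).symm
  rw [this]
  rfl

theorem dvd_prod (T : Finset ℕ) (hT : ∀ q ∈ T, q.Prime) (f : ℕ → ℕ) (p : ℕ) (hp : p.Prime)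
    (h : p ∣ ∏ q ∈ T, q ^ f q) : p ∈ T := by
  obtain ⟨q, hq, hpq⟩ := (Prime.dvd_finset_prod_iff hp.prime _).1 h
  have h3 := (Nat.prime_dvd_prime_iff_eq hp (hT q hq)).1 (hp.dvd_of_dvd_pow hpq)
  rw [h3]; exact hq

theorem val_prod_int (l : ℕ) [Fact l.Prime] (T : Finset (Fin m)) (f : Fin m → ℤ)
    (hf : ∀ i, f i ≠ 0) : padicValNat l (∏ i ∈ T, f i).natAbs =
      ∑ i ∈ T, padicValNat l (f i).natAbs := by
  induction T using Finset.induction_on with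
  | empty => simp
  | insert i T hi ih =>
    rw [Finset.prod_insert hi, Finset.sum_insert hi, Int.natAbs_mul, padicValNat.mul
      (Int.natAbs_ne_zero.2 (hf i)) (Int.natAbs_ne_zero.2 (Finset.prod_ne_zero_iff.2 fun i _ => hf i)),
      ih]

theorem val_zero (l : ℕ) (F : ℤ) (h : ¬ (l : ℤ) ∣ F) : padicValNat l F.natAbs = 0 := by
  apply padicValNat.eq_zero_of_not_dvd
  intro hd
  exact h (Int.natCast_dvd.2 hd)

theorem val_one (l : ℕ) [Fact l.Prime] (F : ℤ) (h : (l : ℤ) ∣ F) (h2 : ¬ (l : ℤ) ^ 2 ∣ F) :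
    padicValNat l F.natAbs = 1 := by
  have hF : F.natAbs ≠ 0 := by
    rw [Int.natAbs_ne_zero]
    rintro rfl
    exact h2 (dvd_zero _)
  have h3 : 1 ≤ padicValNat l F.natAbs := by
    rw [← padicValNat_dvd_iff_le hF, pow_one]
    exact Int.natCast_dvd.1 h
  have h4 : ¬ 2 ≤ padicValNat l F.natAbs := by
    rw [← padicValNat_dvd_iff_le hF]
    intro h5
    apply h2
    have := Int.natCast_dvd.2 h5
    push_cast at this
    exact this
  omega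

/-- Solubility at the primes which do not divide `2 a_j b_j`. -/
theorem pg_of_val (hL : S_LOCN) (E : Dat r m) (c : (i : Fin m) → Fin (e i + 2) → ℤ) (l : ℕ)
    [Fact l.Prime] (w₀ w₁ : ℤ) (hl2 : l ≠ 2) (hla : ∀ j, ¬ (l : ℤ) ∣ E.a j)
    (hlb : ∀ j, ¬ (l : ℤ) ∣ E.b j) (hne : ∀ i, fm (c i) w₀ w₁ ≠ 0)
    (hev : ∀ j, Even (∑ i ∈ E.I j, padicValNat l (fm (c i) w₀ w₁).natAbs) ∨
      jacobiSym (E.a j) l = 1) : PG E c ((w₀ : ℤ) : ℚ_[l]) ((w₁ : ℤ) : ℚ_[l]) := by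
  refine ⟨fun i => ?_, fun j => ?_⟩
  · rw [fm_cast]
    exact_mod_cast hne i
  · have hb : E.b j ≠ 0 := by
      intro h; apply hlb j; rw [h]; exact dvd_zero _
    have h1 : rhs E c j ((w₀ : ℤ) : ℚ_[l]) ((w₁ : ℤ) : ℚ_[l]) =
        ((E.b j * ∏ i ∈ E.I j, fm (c i) w₀ w₁ : ℤ) : ℚ_[l]) := by
      unfold rhs
      push_cast
      congr 1
      exact Finset.prod_congr rfl fun i _ => fm_cast _ _ _
    rw [h1]
    have hp0 : (∏ i ∈ E.I j, fm (c i) w₀ w₁) ≠ 0 := Finset.prod_ne_zero_iff.2 fun i _ => hne i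
    refine hL.1 l _ _ hl2 (hla j) (mul_ne_zero hb hp0) ?_
    rw [Int.natAbs_mul, padicValNat.mul (Int.natAbs_ne_zero.2 hb) (Int.natAbs_ne_zero.2 hp0),
      val_zero l _ (hlb j), zero_add, val_prod_int l _ _ hne]
    exact hev j

/-- Local conditions from congruences. -/
theorem lv_of (hL : S_LOCN) (E : Dat r m) (c : (i : Fin m) → Fin (e i + 2) → ℤ) (PP : Finset ℕ)
    (hPP : ∀ p ∈ PP, p.Prime) (ex : ℕ → ℕ) (M : ℕ) (hM : M = ∏ p ∈ PP, p ^ ex p)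
    (w : ℕ → ℤ × ℤ) (a₀ a₁ : ℤ) (h1 : ∀ p ∈ PP, dl E p ≤ ex p)
    (h2 : ∀ p ∈ PP, ∀ i, ¬ (p : ℤ) ^ (ex p - dl E p + 1) ∣ fm (c i) (w p).1 (w p).2)
    (h3 : ∀ (p : ℕ) [Fact p.Prime], p ∈ PP →
      PG E c (((w p).1 : ℤ) : ℚ_[p]) (((w p).2 : ℤ) : ℚ_[p]))
    (h4 : ∀ p ∈ PP, (p : ℤ) ^ ex p ∣ a₀ - (w p).1) (h5 : ∀ p ∈ PP, (p : ℤ) ^ ex p ∣ a₁ - (w p).2) :
    LV E M c a₀ a₁ := by
  have hcong : ∀ p ∈ PP, ∀ i, (p : ℤ) ^ ex p ∣ fm (c i) a₀ a₁ - fm (c i) (w p).1 (w p).2 :=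
    fun p hp i => fm_modEq _ _ _ _ _ _ _ (fun j => by simp) (h4 p hp) (h5 p hp)
  have hdl : ∀ p, 3 ≤ dl E p := fun p => by unfold dl; omega
  constructor
  · intro p hp hpM
    rw [hM] at hpM
    have hpP := dvd_prod PP hPP ex p hp hpM
    rw [hM, val_prod PP hPP ex p hpP]
    refine ⟨h1 p hpP, fun i hi => h2 p hpP i ?_⟩
    have h6 : (p : ℤ) ^ (ex p - dl E p + 1) ∣ fm (c i) a₀ a₁ - fm (c i) (w p).1 (w p).2 :=
      (pow_dvd_pow _ (by have := hdl p; have := h1 p hpP; omega)).trans (hcong p hpP i)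
    have h7 := dvd_sub hi h6
    simpa using h7
  · intro p hpF hpM
    have hp := hpF.out
    rw [hM] at hpM
    have hpP := dvd_prod PP hPP ex p hp hpM
    have h6 : ∀ i, ∃ z : ℚ_[p], z ≠ 0 ∧ ((fm (c i) a₀ a₁ : ℤ) : ℚ_[p]) =
        ((fm (c i) (w p).1 (w p).2 : ℤ) : ℚ_[p]) * z ^ 2 := by
      intro i
      refine hL.2.1 p _ _ (ex p - dl E p) (h2 p hpP i) ?_
      have h7 := hcong p hpP i
      have h8 : fm (c i) (w p).1 (w p).2 - fm (c i) a₀ a₁ =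
        -(fm (c i) a₀ a₁ - fm (c i) (w p).1 (w p).2) := by ring
      rw [h8, dvd_neg]
      exact (pow_dvd_pow _ (by have := hdl p; have := h1 p hpP; omega)).trans h7
    choose z hz hz' using h6
    refine pg_tr E c c _ _ _ _ (h3 p hpP) z hz fun i => ?_
    rw [fm_cast, fm_cast, hz' i]

theorem kps_pm (hK : S_KAP) (M : ℕ) (a s F : ℤ) (ha : a ≠ 0) (hM : Cont M a)
    (hs : s = 1 ∨ s = -1) : kps M a s F = 1 ∨ kps M a s F = -1 := by
  unfold kps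
  refine hK.2.2.2.2 M a _ ha ?_ hM
  have h1 : (1 : ℤ) ≤ M := by exact_mod_cast hM.1
  have h2 : |F| + 1 ≤ M * (|F| + 1) := le_mul_of_one_le_left (by positivity) h1
  have h3 := neg_abs_le F
  have h4 := le_abs_self F
  rcases hs with rfl | rfl <;> intro h5 <;> linarith

open Classical in
theorem glueg_ (h1 : Pool.Agent.N718.DC.S_PADT) (h2 : S_KAP) (h3 : S_LOCN) (h4 : S_KCH)
    (h5 : S_PRODK) : S_GLUEG := by
  intro r m E e hm hE i₀ hi₀ S N W W' n M hW hWW hab hM hS hN c hpad hTr hWd hloc s hs X Y hXY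
  -- bad primes
  have hapr : ∀ (j : Fin r) (p : ℕ), p.Prime → (p : ℤ) ∣ E.a j → p ≤ W := fun j p hp hd =>
    hab p hp ((hd.mul_right _).trans (Finset.dvd_prod_of_mem (fun j => E.a j * E.b j)
      (Finset.mem_univ j)))
  have hbpr : ∀ (j : Fin r) (p : ℕ), p.Prime → (p : ℤ) ∣ E.b j → p ≤ W := fun j p hp hd =>
    hab p hp ((hd.mul_left _).trans (Finset.dvd_prod_of_mem (fun j => E.a j * E.b j)
      (Finset.mem_univ j)))
  have ha0 : ∀ j, E.a j ≠ 0 := by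
    intro j hj
    apply hE.ha {j} (Finset.singleton_nonempty j)
    rw [Finset.prod_singleton, hj]
    exact ⟨0, by ring⟩
  have hprod0 : (4 * ∏ j, (E.a j).natAbs) ≠ 0 :=
    mul_ne_zero (by norm_num) (Finset.prod_ne_zero_iff.2 fun j _ => Int.natAbs_ne_zero.2 (ha0 j))
  have hdlW : ∀ p : ℕ, p.Prime → W < p → dl E p = 3 := by
    intro p hp hpW
    unfold dl
    rw [padicValNat.eq_zero_of_not_dvd]
    intro hd
    rcases (Nat.Prime.dvd_mul hp).1 hd with h | h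
    · have h6 : p ∣ 2 ^ 2 := by simpa using h
      have := (Nat.prime_dvd_prime_iff_eq hp Nat.prime_two).1 (hp.dvd_of_dvd_pow h6)
      omega
    · obtain ⟨j, -, hj⟩ := (Prime.dvd_finset_prod_iff hp.prime _).1 h
      have := hapr j p hp (Int.natCast_dvd.2 hj)
      omega
  have hvale : ∀ (j : Fin r) (p : ℕ), p.Prime → padicValNat p (4 * (E.a j).natAbs) + 3 ≤ dl E p := by
    intro j p hp
    haveI := Fact.mk hp
    unfold dl
    have h6 : padicValNat p (4 * (E.a j).natAbs) ≤ padicValNat p (4 * ∏ j, (E.a j).natAbs) := by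
      rw [← padicValNat_dvd_iff_le hprod0]
      exact (pow_padicValNat_dvd).trans (Nat.mul_dvd_mul_left 4
        (Finset.dvd_prod_of_mem (fun j => (E.a j).natAbs) (Finset.mem_univ j)))
    omega
  -- the local integral points at the small primes
  have hp1 : ∀ p : Nat.Primes, (p : ℕ) ≤ W → ∃ b₀ b₁ : ℤ,
      (p ∈ S → ‖X p - (b₀ : ℚ_[(p : ℕ)])‖ ≤ (((p : ℕ) : ℝ) ^ N)⁻¹ ∧
        ‖Y p - (b₁ : ℚ_[(p : ℕ)])‖ ≤ (((p : ℕ) : ℝ) ^ N)⁻¹) ∧
      (∀ k, ¬ (((p : ℕ) : ℤ) ^ (3 * n p + 12) ∣ fm (c k) b₀ b₁)) ∧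
      PG E c ((b₀ : ℤ) : ℚ_[(p : ℕ)]) ((b₁ : ℤ) : ℚ_[(p : ℕ)]) := by
    intro p hp
    have h2 : ∃ x y : ℚ_[(p : ℕ)], max ‖x‖ ‖y‖ = 1 ∧ PG E c x y ∧ (p ∈ S → x = X p ∧ y = Y p) := by
      by_cases hpS : p ∈ S
      · exact ⟨X p, Y p, (hXY p hpS).1, (hXY p hpS).2, fun _ => ⟨rfl, rfl⟩⟩
      · obtain ⟨x, y, hxy⟩ := hloc p hp
        obtain ⟨x', y', h3, h4⟩ := pg_norm hm E hE.ev c x y hxy
        exact ⟨x', y', h3, h4, fun hh => absurd hh hpS⟩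
    obtain ⟨x, y, h3, h4, h5⟩ := h2
    obtain ⟨b₀, b₁, h6, h7, h8, h9⟩ := h1 _ e (p : ℕ) N (n p) (hN p) c (hpad p p.2 hp) x y h3 h4.1
    refine ⟨b₀, b₁, fun hpS => ?_, h8, ?_⟩
    · obtain ⟨hx, hy⟩ := h5 hpS
      rw [← hx, ← hy]
      exact ⟨h6, h7⟩
    · choose z hz hz' using h9
      refine pg_tr E c c x y _ _ h4 (fun k => (z k)⁻¹) (fun k => inv_ne_zero (hz k)) fun k => ?_
      rw [fm_cast, hz' k]
      have := hz k
      field_simp
  have hp1' : ∀ p : Nat.Primes, ∃ b : ℤ × ℤ, (p : ℕ) ≤ W →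
      (p ∈ S → ‖X p - (b.1 : ℚ_[(p : ℕ)])‖ ≤ (((p : ℕ) : ℝ) ^ N)⁻¹ ∧
        ‖Y p - (b.2 : ℚ_[(p : ℕ)])‖ ≤ (((p : ℕ) : ℝ) ^ N)⁻¹) ∧
      (∀ k, ¬ (((p : ℕ) : ℤ) ^ (3 * n p + 12) ∣ fm (c k) b.1 b.2)) ∧
      PG E c ((b.1 : ℤ) : ℚ_[(p : ℕ)]) ((b.2 : ℤ) : ℚ_[(p : ℕ)]) := by
    intro p
    by_cases hp : (p : ℕ) ≤ W
    · obtain ⟨b₀, b₁, hb⟩ := hp1 p hp
      exact ⟨(b₀, b₁), fun _ => hb⟩
    · exact ⟨(0, 0), fun h2 => absurd h2 hp⟩
  choose b' hb' using hp1'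
  obtain ⟨b, hbb⟩ : ∃ b : ℕ → ℤ × ℤ, ∀ (p : ℕ) (hp : p.Prime), b p = b' ⟨p, hp⟩ :=
    ⟨fun p => if hp : p.Prime then b' ⟨p, hp⟩ else (0, 0), fun p hp => by simp [hp]⟩
  -- the points at the other primes
  have hp2 : ∀ l : ℕ, ∃ u : ℤ × ℤ, l.Prime → W < l → l ≤ W' →
      ∀ i, ¬ (l : ℤ) ∣ fm (c i) u.1 u.2 := by
    intro l
    by_cases hl : l.Prime ∧ W < l ∧ l ≤ W'
    · obtain ⟨u₀, u₁, hu⟩ := hTr l hl.1 hl.2.1 hl.2.2
      exact ⟨(u₀, u₁), fun _ _ _ => hu⟩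
    · exact ⟨(0, 0), fun h1 h2 h3 => absurd ⟨h1, h2, h3⟩ hl⟩
  choose u hu using hp2
  -- the modulus
  obtain ⟨PP, hPPdef⟩ : ∃ PP : Finset ℕ, PP = (Icc 1 W').filter Nat.Prime := ⟨_, rfl⟩
  obtain ⟨ex, hexdef⟩ : ∃ ex : ℕ → ℕ, ex = fun p => if p ≤ W then 3 * n p + 11 + dl E p else 4 :=
    ⟨_, rfl⟩
  have hPP : ∀ p ∈ PP, p.Prime := fun p hp => by
    rw [hPPdef] at hp; exact (Finset.mem_filter.1 hp).2
  have hPPm : ∀ p : ℕ, p.Prime → p ≤ W' → p ∈ PP := fun p hp hpW => by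
    rw [hPPdef]; exact Finset.mem_filter.2 ⟨Finset.mem_Icc.2 ⟨hp.one_le, hpW⟩, hp⟩
  have hPPle : ∀ p ∈ PP, p ≤ W' := fun p hp => by
    rw [hPPdef] at hp; exact (Finset.mem_Icc.1 (Finset.mem_filter.1 hp).1).2
  have hex1 : ∀ p, p ≤ W → ex p = 3 * n p + 11 + dl E p := fun p hp => by
    rw [hexdef]; simp [hp]
  have hex2 : ∀ p, W < p → ex p = 4 := fun p hp => by
    rw [hexdef]; simp [not_le.2 hp]
  have hPPu : PP = (Icc 1 W).filter Nat.Prime ∪ (Ioc W W').filter Nat.Prime := by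
    rw [hPPdef]
    ext p
    simp only [mem_union, mem_filter, mem_Icc, mem_Ioc]
    constructor
    · rintro ⟨⟨h6, h7⟩, h8⟩
      by_cases h9 : p ≤ W
      · exact Or.inl ⟨⟨h6, h9⟩, h8⟩
      · exact Or.inr ⟨⟨not_le.1 h9, h7⟩, h8⟩
    · rintro (⟨⟨h6, h7⟩, h8⟩ | ⟨⟨h6, h7⟩, h8⟩)
      · exact ⟨⟨h6, h7.trans hWW⟩, h8⟩
      · exact ⟨⟨h8.one_le, h7⟩, h8⟩
  have hMex : M = ∏ p ∈ PP, p ^ ex p := by
    rw [hM, hPPu, Finset.prod_union]
    · congr 1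
      · refine Finset.prod_congr rfl fun p hp => ?_
        rw [hex1 p (Finset.mem_Icc.1 (Finset.mem_filter.1 hp).1).2]
      · refine Finset.prod_congr rfl fun p hp => ?_
        rw [hex2 p (Finset.mem_Ioc.1 (Finset.mem_filter.1 hp).1).1]
    · rw [Finset.disjoint_left]
      intro p h6 h7
      have h8 := (Finset.mem_Icc.1 (Finset.mem_filter.1 h6).1).2
      have h9 := (Finset.mem_Ioc.1 (Finset.mem_filter.1 h7).1).1
      omega
  have hdlex : ∀ p ∈ PP, dl E p ≤ ex p := by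
    intro p hp
    by_cases h6 : p ≤ W
    · rw [hex1 p h6]; omega
    · rw [hex2 p (not_le.1 h6), hdlW p (hPP p hp) (not_le.1 h6)]; omega
  have hco : ∀ p ∈ PP, ∀ q ∈ PP, p ≠ q → IsCoprime ((p : ℤ) ^ ex p) ((q : ℤ) ^ ex q) := by
    intro p hp q hq hpq
    apply IsCoprime.pow
    exact Nat.isCoprime_iff_coprime.2 ((Nat.coprime_primes (hPP p hp) (hPP q hq)).2 hpq)
  have hMdvd : ∀ p : ℕ, p.Prime → p ≤ W → p ∣ M := by
    intro p hp hpW
    rw [hMex]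
    have h6 : p ^ ex p ∣ ∏ p ∈ PP, p ^ ex p :=
      Finset.dvd_prod_of_mem (fun p => p ^ ex p) (hPPm p hp (hpW.trans hWW))
    refine (dvd_pow_self p ?_).trans h6
    rw [hex1 p hpW]; omega
  have hM1 : 1 ≤ M := by
    rw [hMex]
    exact Finset.one_le_prod' fun p hp => Nat.one_le_pow _ _ (hPP p hp).pos
  have hcont : ∀ j, Cont M (E.a j) := fun j =>
    ⟨hM1, hMdvd 2 Nat.prime_two hW, fun p hp hd => hMdvd p hp (hapr j p hp hd)⟩
  have hbad : Bad E M := ⟨hM1, hMdvd 2 Nat.prime_two hW, fun p hp hd => hMdvd p hp (hab p hp hd)⟩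
  -- the first point
  obtain ⟨w0, hw0⟩ : ∃ w0 : ℕ → ℤ × ℤ, w0 = fun p => if p ≤ W then b p else u p := ⟨_, rfl⟩
  obtain ⟨A₀, hA₀⟩ := crt PP (fun p => (p : ℤ) ^ ex p) hco (fun p => (w0 p).1)
  obtain ⟨A₁, hA₁⟩ := crt PP (fun p => (p : ℤ) ^ ex p) hco (fun p => (w0 p).2)
  obtain ⟨L, hL1, hL2⟩ := hWd
  obtain ⟨J, hJ⟩ : ∃ J : Finset (Fin r × Fin m), J = Finset.univ.filter (fun q : Fin r × Fin m =>
    q.2 ∈ E.I q.1 ∧ q.2 ≠ i₀ q.1 ∧ kps M (E.a q.1) (s q.2) (fm (c q.2) A₀ A₁) = -1) := ⟨_, rfl⟩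
  have hJm : ∀ q, q ∈ J ↔ q.2 ∈ E.I q.1 ∧ q.2 ≠ i₀ q.1 ∧
      kps M (E.a q.1) (s q.2) (fm (c q.2) A₀ A₁) = -1 := fun q => by rw [hJ]; simp
  have hJinj : ∀ q ∈ J, ∀ q' ∈ J, L q.1 q.2 = L q'.1 q'.2 → q = q' := by
    intro q hq q' hq' h6
    rw [hJm] at hq hq'
    obtain ⟨h7, h8⟩ := hL2 q.1 q.2 q'.1 q'.2 hq.1 hq.2.1 hq'.1 hq'.2.1 h6
    exact Prod.ext h7 h8
  obtain ⟨D, hD⟩ : ∃ D : Finset ℕ, D = J.image (fun q => L q.1 q.2) := ⟨_, rfl⟩
  have hDm : ∀ l, l ∈ D ↔ ∃ q ∈ J, L q.1 q.2 = l := fun l => by rw [hD, Finset.mem_image]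
  have hLJ : ∀ q ∈ J, W < L q.1 q.2 ∧ L q.1 q.2 ≤ W' ∧ Flip E c q.1 q.2 (i₀ q.1) (L q.1 q.2) := by
    intro q hq
    rw [hJm] at hq
    exact hL1 q.1 q.2 hq.1 hq.2.1
  have hp3 : ∀ l : ℕ, ∃ v : ℤ × ℤ, ∀ q ∈ J, L q.1 q.2 = l →
      (∀ k, (l : ℤ) ∣ fm (c k) v.1 v.2 ↔ k = q.2 ∨ k = i₀ q.1) ∧
      ∀ k, ¬ (l : ℤ) ^ 2 ∣ fm (c k) v.1 v.2 := by
    intro l
    by_cases hl : ∃ q ∈ J, L q.1 q.2 = l
    · obtain ⟨q, hq, hql⟩ := hl
      obtain ⟨-, -, hF⟩ := hLJ q hq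
      obtain ⟨u₀, u₁, h6, h7⟩ := hF.2.2.2
      refine ⟨(u₀, u₁), fun q' hq' he => ?_⟩
      have hqq : q' = q := hJinj q' hq' q hq (he.trans hql.symm)
      rw [hqq, ← hql]
      exact ⟨h6, h7⟩
    · exact ⟨(0, 0), fun q hq he => absurd ⟨q, hq, he⟩ hl⟩
  choose v hv using hp3
  -- the second point
  obtain ⟨w, hw⟩ : ∃ w : ℕ → ℤ × ℤ,
    w = fun p => if p ≤ W then b p else if p ∈ D then v p else u p := ⟨_, rfl⟩
  obtain ⟨a₀, ha₀⟩ := crt PP (fun p => (p : ℤ) ^ ex p) hco (fun p => (w p).1)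
  obtain ⟨a₁, ha₁⟩ := crt PP (fun p => (p : ℤ) ^ ex p) hco (fun p => (w p).2)
  have hw1 : ∀ p, p ≤ W → w p = b p := fun p hp => by rw [hw]; simp [hp]
  have hw2 : ∀ p, W < p → p ∈ D → w p = v p := fun p hp hd => by rw [hw]; simp [not_le.2 hp, hd]
  have hw3 : ∀ p, W < p → p ∉ D → w p = u p := fun p hp hd => by rw [hw]; simp [not_le.2 hp, hd]
  have hw01 : ∀ p, p ≤ W → w0 p = b p := fun p hp => by rw [hw0]; simp [hp]
  have hw02 : ∀ p, W < p → w0 p = u p := fun p hp => by rw [hw0]; simp [not_le.2 hp]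
  have hDW : ∀ l ∈ D, W < l ∧ l ≤ W' ∧ l.Prime := by
    intro l hl
    obtain ⟨q, hq, hql⟩ := (hDm l).1 hl
    obtain ⟨h6, h7, h8⟩ := hLJ q hq
    rw [hql] at h6 h7 h8
    exact ⟨h6, h7, h8.1⟩
  have hg2 : ∀ p ∈ PP, ∀ i, ¬ (p : ℤ) ^ (ex p - dl E p + 1) ∣ fm (c i) (w p).1 (w p).2 := by
    intro p hp i
    by_cases h6 : p ≤ W
    · rw [hw1 p h6, hex1 p h6, hbb p (hPP p hp)]
      have h7 := (hb' ⟨p, hPP p hp⟩ h6).2.1 i
      have h8 : 3 * n p + 11 + dl E p - dl E p + 1 = 3 * n p + 12 := by omega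
      rw [h8]; exact h7
    · have h6' := not_le.1 h6
      rw [hex2 p h6', hdlW p (hPP p hp) h6']
      have h8 : 4 - 3 + 1 = 2 := by norm_num
      rw [h8]
      by_cases h7 : p ∈ D
      · obtain ⟨q, hq, hql⟩ := (hDm p).1 h7
        rw [hw2 p h6' h7]
        exact (hv p q hq hql).2 i
      · rw [hw3 p h6' h7]
        intro h8
        exact hu p (hPP p hp) h6' (hPPle p hp) i ((dvd_pow_self (p : ℤ) two_ne_zero).trans h8)
  have hg3 : ∀ (p : ℕ) [Fact p.Prime], p ∈ PP →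
      PG E c (((w p).1 : ℤ) : ℚ_[p]) (((w p).2 : ℤ) : ℚ_[p]) := by
    intro p hpF hp
    by_cases h6 : p ≤ W
    · have h7 := (hb' ⟨p, hPP p hp⟩ h6).2.2
      rw [← hbb p (hPP p hp)] at h7
      rw [hw1 p h6]
      exact h7
    · have h6' := not_le.1 h6
      have hne : ∀ i, fm (c i) (w p).1 (w p).2 ≠ 0 := fun i h0 => hg2 p hp i (h0 ▸ dvd_zero _)
      have hl2 : p ≠ 2 := by omega
      refine pg_of_val h3 E c p _ _ hl2 (fun j hd => ?_) (fun j hd => ?_) hne (fun j => ?_)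
      · have := hapr j p (hPP p hp) hd; omega
      · have := hbpr j p (hPP p hp) hd; omega
      · by_cases h7 : p ∈ D
        · obtain ⟨q, hq, hql⟩ := (hDm p).1 h7
          obtain ⟨h9, h10⟩ := hv p q hq hql
          have hq' := (hJm q).1 hq
          by_cases h8 : j = q.1
          · left
            rw [h8]
            have hterm : ∀ i ∈ E.I q.1, padicValNat p (fm (c i) (w p).1 (w p).2).natAbs =
                if i = q.2 ∨ i = i₀ q.1 then 1 else 0 := by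
              intro i _
              rw [hw2 p h6' h7]
              by_cases h13 : i = q.2 ∨ i = i₀ q.1
              · rw [if_pos h13]
                exact val_one p _ ((h9 i).2 h13) (h10 i)
              · rw [if_neg h13]
                exact val_zero p _ (fun h => h13 ((h9 i).1 h))
            rw [Finset.sum_congr rfl hterm, Finset.sum_boole]
            have hfil : (E.I q.1).filter (fun i => i = q.2 ∨ i = i₀ q.1) = {q.2, i₀ q.1} := by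
              ext i
              simp only [mem_filter, mem_insert, mem_singleton]
              constructor
              · exact fun h => h.2
              · intro h
                refine ⟨?_, h⟩
                rcases h with h | h
                · rw [h]; exact hq'.1
                · rw [h]; exact hi₀ q.1 ⟨q.2, hq'.1⟩
            rw [hfil, Finset.card_pair hq'.2.1]
            exact ⟨1, rfl⟩
          · right
            obtain ⟨-, -, hF⟩ := hLJ q hq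
            rw [hql] at hF
            exact hF.2.2.1 j h8
        · left
          rw [Finset.sum_eq_zero]
          · exact ⟨0, rfl⟩
          · intro i _
            rw [hw3 p h6' h7]
            exact val_zero p _ (hu p (hPP p hp) h6' (hPPle p hp) i)
  have hLV : LV E M c a₀ a₁ := lv_of h3 E c PP hPP ex M hMex w a₀ a₁ hdlex hg2 hg3 ha₀ ha₁
  -- valuations at the primes of `D`
  have hvF2 : ∀ l ∈ D, ∀ k, ¬ (l : ℤ) ^ 2 ∣ fm (c k) a₀ a₁ := by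
    intro l hl k
    obtain ⟨q, hq, hql⟩ := (hDm l).1 hl
    obtain ⟨h6, h7, h8⟩ := hDW l hl
    have hlP := hPPm l h8 h7
    have hc := fm_modEq (c k) (c k) a₀ a₁ (w l).1 (w l).2 ((l : ℤ) ^ ex l) (fun j => by simp)
      (ha₀ l hlP) (ha₁ l hlP)
    rw [hex2 l h6, hw2 l h6 hl] at hc
    intro h9
    exact (hv l q hq hql).2 k ((dvd_iff_dvd_of_dvd_sub
      ((pow_dvd_pow (l : ℤ) (by norm_num : 2 ≤ 4)).trans hc)).1 h9)
  have hvF : ∀ q ∈ J, ∀ k, padicValNat (L q.1 q.2) (fm (c k) a₀ a₁).natAbs =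
      if k = q.2 ∨ k = i₀ q.1 then 1 else 0 := by
    intro q hq k
    obtain ⟨l, hl⟩ : ∃ l, L q.1 q.2 = l := ⟨_, rfl⟩
    rw [hl]
    have hlD : l ∈ D := (hDm l).2 ⟨q, hq, hl⟩
    obtain ⟨h6, h7, h8⟩ := hDW l hlD
    haveI := Fact.mk h8
    have hlP := hPPm l h8 h7
    have hc := fm_modEq (c k) (c k) a₀ a₁ (w l).1 (w l).2 ((l : ℤ) ^ ex l) (fun j => by simp)
      (ha₀ l hlP) (ha₁ l hlP)
    rw [hex2 l h6, hw2 l h6 hlD] at hc
    obtain ⟨h9, h10⟩ := hv l q hq hl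
    have h11 : (l : ℤ) ∣ fm (c k) a₀ a₁ ↔ (l : ℤ) ∣ fm (c k) (v l).1 (v l).2 :=
      dvd_iff_dvd_of_dvd_sub ((dvd_pow_self (l : ℤ) (by norm_num : 4 ≠ 0)).trans hc)
    by_cases h13 : k = q.2 ∨ k = i₀ q.1
    · rw [if_pos h13]
      exact val_one l _ (h11.2 ((h9 k).2 h13)) (hvF2 l hlD k)
    · rw [if_neg h13]
      exact val_zero l _ (fun h => h13 ((h9 k).1 (h11.1 h)))
  have hvF' : ∀ l ∈ D, ∀ k, ¬ (l : ℤ) ∣ fm (c k) A₀ A₁ := by
    intro l hl k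
    obtain ⟨h6, h7, h8⟩ := hDW l hl
    have hlP := hPPm l h8 h7
    have hc := fm_modEq (c k) (c k) A₀ A₁ (w0 l).1 (w0 l).2 ((l : ℤ) ^ ex l) (fun j => by simp)
      (hA₀ l hlP) (hA₁ l hlP)
    rw [hex2 l h6, hw02 l h6] at hc
    intro h9
    exact hu l h8 h6 h7 k ((dvd_iff_dvd_of_dvd_sub
      ((dvd_pow_self (l : ℤ) (by norm_num : 4 ≠ 0)).trans hc)).1 h9)
  -- the modulus without the primes of `D`
  obtain ⟨M', hM'⟩ : ∃ M' : ℕ, M' = ∏ p ∈ PP \ D, p ^ ex p := ⟨_, rfl⟩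
  have hDP : D ⊆ PP := fun l hl => hPPm l (hDW l hl).2.2 (hDW l hl).2.1
  have hPPD : ∀ q ∈ PP \ D, q.Prime := fun q hq => hPP q (Finset.mem_sdiff.1 hq).1
  have hMM : M = M' * ∏ l ∈ D, l ^ 4 := by
    rw [hMex, hM', ← Finset.prod_sdiff hDP]
    congr 1
    exact Finset.prod_congr rfl fun l hl => by rw [hex2 l (hDW l hl).1]
  have hM'1 : 1 ≤ M' := by
    rw [hM']
    exact Finset.one_le_prod' fun p hp => Nat.one_le_pow _ _ (hPPD p hp).pos
  have hM'dvd : ∀ p : ℕ, p.Prime → p ≤ W → p ∣ M' := by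
    intro p hp hpW
    have h6 : p ∈ PP \ D := by
      refine Finset.mem_sdiff.2 ⟨hPPm p hp (hpW.trans hWW), fun h => ?_⟩
      have := (hDW p h).1
      omega
    rw [hM']
    have h7 : p ^ ex p ∣ ∏ p ∈ PP \ D, p ^ ex p := Finset.dvd_prod_of_mem (fun p => p ^ ex p) h6
    refine (dvd_pow_self p ?_).trans h7
    rw [hex1 p hpW]; omega
  have hcont' : ∀ j, Cont M' (E.a j) := fun j =>
    ⟨hM'1, hM'dvd 2 Nat.prime_two hW, fun p hp hd => hM'dvd p hp (hapr j p hp hd)⟩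
  have hww : ∀ p ∈ PP \ D, w p = w0 p := by
    intro p hp
    by_cases h6 : p ≤ W
    · rw [hw1 p h6, hw01 p h6]
    · rw [hw3 p (not_le.1 h6) (Finset.mem_sdiff.1 hp).2, hw02 p (not_le.1 h6)]
  have hdvM : ∀ x : ℤ, (∀ p ∈ PP \ D, (p : ℤ) ^ ex p ∣ x) → (M' : ℤ) ∣ x := by
    intro x hx
    have h6 : (M' : ℤ) = ∏ p ∈ PP \ D, (p : ℤ) ^ ex p := by rw [hM']; push_cast; rfl
    rw [h6]
    refine Finset.prod_dvd_of_coprime (fun p hp q hq hpq => ?_) hx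
    exact hco p (Finset.mem_sdiff.1 hp).1 q (Finset.mem_sdiff.1 hq).1 hpq
  have hM'sub : ∀ k, (M' : ℤ) ∣ fm (c k) a₀ a₁ - fm (c k) A₀ A₁ := by
    intro k
    refine fm_modEq _ _ _ _ _ _ _ (fun j => by simp) (hdvM _ fun p hp => ?_)
      (hdvM _ fun p hp => ?_)
    · have h6 := ha₀ p (Finset.mem_sdiff.1 hp).1
      have h7 := hA₀ p (Finset.mem_sdiff.1 hp).1
      rw [hww p hp] at h6
      have h8 := dvd_sub h6 h7
      have h9 : a₀ - (w0 p).1 - (A₀ - (w0 p).1) = a₀ - A₀ := by ring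
      rwa [h9] at h8
    · have h6 := ha₁ p (Finset.mem_sdiff.1 hp).1
      have h7 := hA₁ p (Finset.mem_sdiff.1 hp).1
      rw [hww p hp] at h6
      have h8 := dvd_sub h6 h7
      have h9 : a₁ - (w0 p).2 - (A₁ - (w0 p).2) = a₁ - A₁ := by ring
      rwa [h9] at h8
  have key : ∀ j, ∀ i ∈ E.I j, kps M (E.a j) (s i) (fm (c i) a₀ a₁) *
      ∏ q ∈ J, jacobiSym (E.a j) (L q.1 q.2) ^ (if i = q.2 ∨ i = i₀ q.1 then 1 else 0) =
      kps M (E.a j) (s i) (fm (c i) A₀ A₁) := by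
    intro j i _
    have h6 := h4 M' D 4 (E.a j) (s i) (fm (c i) a₀ a₁) (fm (c i) A₀ A₁) (ha0 j) (hcont' j)
      (fun l hl => ⟨(hDW l hl).2.2, fun hd => ?_⟩) (hs.1 i) (hM'sub i) (fun p hp hpM => ?_)
      (fun l hl => ⟨fun hd => ?_, fun hd => ?_⟩)
    · rw [← hMM] at h6
      have h7 : ∏ l ∈ D, jacobiSym (E.a j) l ^ padicValNat l (fm (c i) A₀ A₁).natAbs = 1 := by
        refine Finset.prod_eq_one fun l hl => ?_
        rw [val_zero l _ (hvF' l hl i), pow_zero]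
      have h8 : ∏ l ∈ D, jacobiSym (E.a j) l ^ padicValNat l (fm (c i) a₀ a₁).natAbs =
          ∏ q ∈ J, jacobiSym (E.a j) (L q.1 q.2) ^ (if i = q.2 ∨ i = i₀ q.1 then 1 else 0) := by
        rw [hD, Finset.prod_image (fun q hq q' hq' h => hJinj q hq q' hq' h)]
        exact Finset.prod_congr rfl fun q hq => by rw [hvF q hq i]
      rw [h7, h8, mul_one] at h6
      exact h6
    · rw [hM'] at hd
      exact (Finset.mem_sdiff.1 (dvd_prod _ hPPD ex l (hDW l hl).2.2 hd)).2 hl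
    · rw [hM'] at hpM
      have h7 := dvd_prod _ hPPD ex p hp hpM
      have h8 := (Finset.mem_sdiff.1 h7).1
      rw [hM', val_prod _ hPPD ex p h7]
      have h9 := hvale j p hp
      have h10 := hdlex p h8
      refine ⟨by omega, fun hd => ?_⟩
      have h11 := (hLV.val p hp (by
        rw [hMex]
        refine (dvd_pow_self p ?_).trans (Finset.dvd_prod_of_mem (fun p => p ^ ex p) h8)
        omega)).2 i
      rw [hMex, val_prod PP hPP ex p h8] at h11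
      exact h11 ((pow_dvd_pow _ (by omega)).trans hd)
    · exact hvF2 l hl i ((pow_dvd_pow (l : ℤ) (by norm_num : 2 ≤ 4)).trans hd)
    · exact hvF' l hl i ((dvd_pow_self (l : ℤ) (by norm_num : 4 ≠ 0)).trans hd)
  have main2 : ∀ j, ∀ i ∈ E.I j, i ≠ i₀ j → kps M (E.a j) (s i) (fm (c i) a₀ a₁) = 1 := by
    intro j i hi hii
    have h6 := key j i hi
    have h7 : ∀ q ∈ J, jacobiSym (E.a j) (L q.1 q.2) ^ (if i = q.2 ∨ i = i₀ q.1 then 1 else 0) =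
        if q = (j, i) then -1 else 1 := by
      intro q hq
      obtain ⟨-, -, hF⟩ := hLJ q hq
      by_cases h8 : q.1 = j
      · by_cases h9 : q.2 = i
        · have h10 : q = (j, i) := Prod.ext h8 h9
          rw [if_pos h10, if_pos (Or.inl h9.symm), pow_one]
          rw [← h8]; exact hF.2.1
        · rw [if_neg (fun h => h9 (congrArg Prod.snd h)), if_neg, pow_zero]
          rintro (h | h)
          · exact h9 h.symm
          · rw [h8] at h; exact hii h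
      · rw [if_neg (fun h => h8 (congrArg Prod.fst h)), hF.2.2.1 j (fun h => h8 h.symm), one_pow]
    rw [Finset.prod_congr rfl h7, Finset.prod_ite_eq'] at h6
    by_cases h8 : (j, i) ∈ J
    · rw [if_pos h8, ((hJm _).1 h8).2.2] at h6
      linarith
    · rw [if_neg h8, mul_one] at h6
      rw [h6]
      rcases kps_pm h2 M (E.a j) (s i) (fm (c i) A₀ A₁) (ha0 j) (hcont j) (hs.1 i) with h | h
      · exact h
      · exact absurd ((hJm (j, i)).2 ⟨hi, hii, h⟩) h8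
  refine ⟨a₀, a₁, ?_, hLV, ?_⟩
  · intro p hpS
    have hpW := hS p hpS
    obtain ⟨h3, -, -⟩ := hb' p hpW
    obtain ⟨h4, h5⟩ := h3 hpS
    have hbp : b' p = b (p : ℕ) := (hbb p p.2).symm
    rw [hbp, ← hw1 p hpW] at h4 h5
    have hpP := hPPm p p.2 (hpW.trans hWW)
    have hNn : N ≤ ex p := by have := hN p; rw [hex1 p hpW]; omega
    have gen : ∀ (Z : ℚ_[(p : ℕ)]) (u v : ℤ), ‖Z - (u : ℚ_[(p : ℕ)])‖ ≤ (((p : ℕ) : ℝ) ^ N)⁻¹ →
        (((p : ℕ) : ℤ) ^ ex p) ∣ v - u →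
        ‖Z - (v : ℚ_[(p : ℕ)])‖ ≤ (((p : ℕ) : ℝ) ^ N)⁻¹ := by
      intro Z u v h6 h7
      have h8 : Z - (v : ℚ_[(p : ℕ)]) = (Z - u) + ((u - v : ℤ) : ℚ_[(p : ℕ)]) := by push_cast; ring
      rw [h8]
      refine (Padic.nonarchimedean _ _).trans (max_le h6 ?_)
      refine norm_int_le _ _ ?_
      have h9 : (((p : ℕ) : ℤ) ^ N) ∣ v - u := (pow_dvd_pow _ hNn).trans h7
      have h10 : u - v = -(v - u) := by ring
      rw [h10]
      exact (dvd_neg).2 h9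
    exact ⟨gen _ _ _ h4 (ha₀ p hpP), gen _ _ _ h5 (ha₁ p hpP)⟩
  · intro j i hi
    by_cases hii : i = i₀ j
    · have h6 := h5 r m E e hE M hbad c s a₀ a₁ hs hLV j
      rw [← Finset.mul_prod_erase _ _ hi, Finset.prod_eq_one (fun k hk => main2 j k
        (Finset.mem_of_mem_erase hk) (fun h => Finset.ne_of_mem_erase hk (h.trans hii.symm))),
        mul_one] at h6
      exact h6
    · exact main2 j i hi hii

end Pool.Agent.N293.GC
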